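import Pool.Agent.Helper738.KP.Cor

set_option autoImplicit false

namespace Pool.Agent.Results.MP_0c1c75_co.IntersectUpToDPlusFour

open MeasureTheory

/-- **The Kneser-Poulsen conjecture for intersections of at most `d + 4` balls in every
dimension.** -/
theorem result :
    ∀ (d N : ℕ), 1 ≤ N → N ≤ d + 4 →
      ∀ (p q : Fin N → EuclideanSpace ℝ (Fin d)),
      (∀ i j, dist (q i) (q j) ≤ dist (p i) (p j)) →
      ∀ r : Fin N → ℝ, (∀ i, 0 < r i) →
        volume (⋂ i, Metric.closedBall (p i) (r i)) ≤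
          volume (⋂ i, Metric.closedBall (q i) (r i)) := by
  intro d N h1 h4 p q hpq r hr
  have : Nonempty (Fin N) := ⟨⟨0, by omega⟩⟩
  exact KP.inter_of_setFn
    (KP.setFnIneq_of_card (ι := Fin N) (J := Fin d) (by simpa using h4) p q hpq r hr)

end Pool.Agent.Results.MP_0c1c75_co.IntersectUpToDPlusFour
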